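import Mathlib
import Pool.Agent.MP_a45f51_lc.h62.Final

/-! The hypothesis `ℵ_ω < ∑ 2 ^ ℵ_n`, `2 ^ ℵ_n < ∑ 2 ^ ℵ_m` is consistent with
`∑ 2 ^ ℵ_n → (ℵ_ω, 4)^3` and with its negation. -/

namespace Pool.Agent.Results.MP_a45f51_lc.BothConsistent

open Pool.Agent.ZFC77 Pool.Agent.MP_a45f51_lc.A62

theorem result :
    (∃ (M : Type 1) (E : M → M → Prop), ZFC E ∧ ∃ k L, IHyp E k L ∧ IArrow E L k) ∧
    ∃ (M : Type 1) (E : M → M → Prop), ZFC E ∧ ∃ k L, IHyp E k L ∧ ¬ IArrow E L k :=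
  both_models

end Pool.Agent.Results.MP_a45f51_lc.BothConsistent
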